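import Pool.Agent.Q199.AI.Iso

/-!
# Asymptotically isotropic transitive norms are Hilbertian
-/

set_option autoImplicit false
set_option linter.unusedSectionVars false

namespace Pool.Agent.Q199.AI

open Filter Topology
open Pool.H770R2.Maz

variable {E : Type*} [NormedAddCommGroup E] [NormedSpace ℝ E]
  {V : Type*} [AddCommGroup V] [Module ℝ V] [TopologicalSpace V] [IsTopologicalAddGroup V]
  [ContinuousSMul ℝ V] [T2Space V] {j : E →ₗ[ℝ] V} {N : ℝ → ℝ → ℝ} {x₀ : E} {z : ℕ → E}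

/-- the norms of the sums of `n` asymptotically disjoint unit vectors -/
noncomputable def sq (N : ℝ → ℝ → ℝ) : ℕ → ℝ
  | 0 => 0
  | n + 1 => N (sq N n) 1

section z

variable (hj : Function.Injective j) (hK : BallCpt j) (hA : AsIso j N) (hx : ‖x₀‖ = 1)
  (hz : ∀ n, ‖z n‖ = 1) (hzw : Null j z)

include hj hK hA hx hz hzw

theorem sq_nonneg (n : ℕ) : 0 ≤ sq N n := by
  induction n with
  | zero => exact le_rfl
  | succ n ih => exact N_nonneg hj hK hA hx hz hzw ih zero_le_one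

theorem sq_one : sq N 1 = 1 := by
  show N 0 1 = 1
  exact N_zero' hj hK hA hx hz hzw zero_le_one

theorem sq_mono : Monotone (sq N) := by
  refine monotone_nat_of_le_succ fun n => ?_
  exact N_left hj hK hA hx hz hzw (sq_nonneg hj hK hA hx hz hzw n) zero_le_one

theorem sq_add (m n : ℕ) : sq N (m + n) = N (sq N m) (sq N n) := by
  induction n with
  | zero =>
    show sq N m = N (sq N m) 0
    rw [N_zero hj hK hA hx hz hzw (sq_nonneg hj hK hA hx hz hzw m)]
  | succ n ih =>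
    show N (sq N (m + n)) 1 = N (sq N m) (N (sq N n) 1)
    rw [ih, N_assoc hj hK hA hx hz hzw (sq_nonneg hj hK hA hx hz hzw m)
      (sq_nonneg hj hK hA hx hz hzw n) zero_le_one]

theorem sq_mul (m n : ℕ) : sq N (m * n) = sq N m * sq N n := by
  have hm := sq_nonneg hj hK hA hx hz hzw m
  induction n with
  | zero =>
    rw [mul_zero]
    show (0 : ℝ) = sq N m * 0
    rw [mul_zero]
  | succ n ih =>
    have hn := sq_nonneg hj hK hA hx hz hzw n
    rw [Nat.mul_succ, sq_add hj hK hA hx hz hzw, ih]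
    show N (sq N m * sq N n) (sq N m) = sq N m * N (sq N n) 1
    rw [← N_hom hj hK hA hx hz hzw hn zero_le_one hm, mul_one]

/-- the power law -/
theorem power_law (h2 : 1 < sq N 2) : ∃ c : ℝ, 0 < c ∧ ∀ A B : ℝ, 0 ≤ A → 0 ≤ B →
    N (A ^ c) (B ^ c) = (A + B) ^ c := by
  obtain ⟨c, hc, hcn⟩ := mult_pow (sq N) (sq_one hj hK hA hx hz hzw)
    (sq_mul hj hK hA hx hz hzw) (sq_mono hj hK hA hx hz hzw) h2
  have hcn' : ∀ n : ℕ, sq N n = (n : ℝ) ^ c := by
    intro n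
    rcases Nat.eq_zero_or_pos n with h | h
    · subst h
      rw [Nat.cast_zero, Real.zero_rpow hc.ne']
      rfl
    · exact hcn n h
  refine ⟨c, hc, fun A B hA0 hB0 => ?_⟩
  have hq : ∀ k : ℕ, 1 ≤ k → ∀ m n : ℕ,
      N (((m : ℝ) / k) ^ c) (((n : ℝ) / k) ^ c) = (((m : ℝ) + n) / k) ^ c := by
    intro k hk m n
    have hk0 : (0 : ℝ) < k := by exact_mod_cast hk
    have hkc : (0 : ℝ) < (k : ℝ) ^ c := Real.rpow_pos_of_pos hk0 _
    rw [Real.div_rpow (Nat.cast_nonneg m) hk0.le, Real.div_rpow (Nat.cast_nonneg n) hk0.le,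
      Real.div_rpow (by positivity) hk0.le, div_eq_inv_mul, div_eq_inv_mul, div_eq_inv_mul,
      N_hom hj hK hA hx hz hzw (by positivity) (by positivity) (by positivity)]
    congr 1
    rw [← hcn' m, ← hcn' n, ← sq_add hj hK hA hx hz hzw, hcn', Nat.cast_add]
  have hfl : ∀ x : ℝ, 0 ≤ x → Tendsto (fun k : ℕ => ((⌊x * k⌋₊ : ℕ) : ℝ) / k) atTop (𝓝 x) :=
    fun x hx => (tendsto_nat_floor_mul_div_atTop hx).comp tendsto_natCast_atTop_atTop
  have hpc : ∀ x : ℝ, 0 ≤ x → ContinuousAt (fun y : ℝ => y ^ c) x := fun x _ =>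
    Real.continuousAt_rpow_const x c (Or.inr hc.le)
  have hL : Tendsto (fun k : ℕ => N ((((⌊A * k⌋₊ : ℕ) : ℝ) / k) ^ c)
      ((((⌊B * k⌋₊ : ℕ) : ℝ) / k) ^ c)) atTop (𝓝 (N (A ^ c) (B ^ c))) := by
    have h1 := ((hpc A hA0).tendsto.comp (hfl A hA0)).sub_const (A ^ c) |>.abs
    have h3 := ((hpc B hB0).tendsto.comp (hfl B hB0)).sub_const (B ^ c) |>.abs
    rw [sub_self, abs_zero] at h1 h3
    have h4 := h1.add h3
    rw [add_zero] at h4
    rw [tendsto_iff_dist_tendsto_zero]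
    refine squeeze_zero (fun _ => dist_nonneg) (fun k => ?_) h4
    rw [Real.dist_eq]
    exact N_lip hj hK hA hx hz hzw (by positivity) (by positivity) (by positivity) (by positivity)
  have hR : Tendsto (fun k : ℕ => ((((⌊A * k⌋₊ : ℕ) : ℝ) + ((⌊B * k⌋₊ : ℕ) : ℝ)) / k) ^ c) atTop
      (𝓝 ((A + B) ^ c)) := by
    have h1 := (hfl A hA0).add (hfl B hB0)
    refine (((hpc (A + B) (by positivity)).tendsto).comp h1).congr fun k => ?_
    show (((⌊A * k⌋₊ : ℕ) : ℝ) / k + ((⌊B * k⌋₊ : ℕ) : ℝ) / k) ^ c = _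
    rw [add_div]
  refine tendsto_nhds_unique hL (hR.congr' ?_)
  filter_upwards [eventually_ge_atTop 1] with k hk
  exact (hq k hk _ _).symm

/-- the gauge -/
noncomputable def Ga (c : ℝ) (t : ℝ) : ℝ := |t| ^ c⁻¹

omit hj hK hA hx hz hzw in
theorem Ga_gauge {c : ℝ} (hc : 0 < c) : Gauge (Ga c) := by
  have hc' : 0 < c⁻¹ := inv_pos.2 hc
  refine ⟨?_, ?_, ?_⟩
  · exact continuous_abs.rpow_const fun x => Or.inr hc'.le
  · intro a ha b hb hab
    unfold Ga
    rw [abs_of_nonneg ha, abs_of_nonneg hb]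
    exact Real.rpow_lt_rpow ha hab hc'
  · unfold Ga
    rw [abs_zero, Real.zero_rpow hc'.ne']

omit hj hK hA hx hz hzw in
theorem Ga_add {c : ℝ} (hc : 0 < c)
    (h : ∀ A B : ℝ, 0 ≤ A → 0 ≤ B → N (A ^ c) (B ^ c) = (A + B) ^ c)
    {a b : ℝ} (ha : 0 ≤ a) (hb : 0 ≤ b) : Ga c (N a b) = Ga c a + Ga c b := by
  have h1 := h (a ^ c⁻¹) (b ^ c⁻¹) (by positivity) (by positivity)
  rw [← Real.rpow_mul ha, ← Real.rpow_mul hb, inv_mul_cancel₀ hc.ne', Real.rpow_one,
    Real.rpow_one] at h1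
  have h2 : 0 ≤ (a ^ c⁻¹ + b ^ c⁻¹) ^ c := by positivity
  unfold Ga
  rw [h1, abs_of_nonneg h2, abs_of_nonneg ha, abs_of_nonneg hb, ← Real.rpow_mul (by positivity),
    mul_inv_cancel₀ hc.ne', Real.rpow_one]

omit hj hK hx hz hzw in
theorem asympV {c : ℝ} (hc : 0 < c)
    (h : ∀ A B : ℝ, 0 ≤ A → 0 ≤ B → N (A ^ c) (B ^ c) = (A + B) ^ c) :
    AsympV (Ga c) j := by
  rintro w ⟨C, hC⟩ hw u
  have hcont := (Ga_gauge hc).1
  apply tendsto_of_subseq_tendsto
  intro ns hns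
  have hcomp : IsCompact (Set.Icc (0 : ℝ) C) := isCompact_Icc
  obtain ⟨b, hb, φ, hφ, hlim⟩ := hcomp.tendsto_subseq (x := fun n => ‖w (ns n)‖)
    (fun n => ⟨norm_nonneg _, hC _⟩)
  refine ⟨φ, ?_⟩
  have h1 := hA u (fun k => w (ns (φ k))) b
    (Null.comp hw (hns.comp hφ.tendsto_atTop)) hlim
  have h2 := ((hcont.tendsto _).comp h1).sub ((hcont.tendsto b).comp hlim)
  rw [Ga_add hc h (norm_nonneg u) hb.1, add_sub_cancel_right] at h2
  exact h2

/-- the norm `max` is impossible -/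
theorem not_max : 1 < sq N 2 := by
  classical
  by_contra hcon
  push Not at hcon
  have h11 : N 1 1 ≤ 1 := by
    have : sq N 2 = N 1 1 := by
      show N (N 0 1) 1 = N 1 1
      rw [N_zero' hj hK hA hx hz hzw zero_le_one]
    rwa [this] at hcon
  have hmax : ∀ a : ℝ, 0 ≤ a → ∀ K : ℝ, 1 ≤ K → a ≤ K → N a 1 ≤ K := by
    intro a ha K hK1 haK
    calc N a 1 ≤ N K 1 := N_mono_left hj hK hA hx hz hzw ha haK zero_le_one
      _ ≤ N K K := N_mono_right hj hK hA hx hz hzw (by linarith) zero_le_one hK1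
      _ = K * N 1 1 := by
        rw [← N_hom hj hK hA hx hz hzw zero_le_one zero_le_one (by linarith), mul_one]
      _ ≤ K * 1 := mul_le_mul_of_nonneg_left h11 (by linarith)
      _ = K := mul_one K
  have hzn : Tendsto (fun n => ‖z n‖) atTop (𝓝 1) :=
    tendsto_const_nhds.congr fun n => (hz n).symm
  have hzn' : Tendsto (fun n => ‖(-1 : ℝ) • z n‖) atTop (𝓝 1) :=
    tendsto_const_nhds.congr fun n => by rw [norm_smul, hz n]; norm_num
  -- one step
  have hstep : ∀ (F : Finset E) (K ε : ℝ), 1 ≤ K → 0 < ε → (∀ u ∈ F, ‖u‖ ≤ K) → ∀ n₀ : ℕ,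
      ∃ n, n₀ < n ∧ ∀ u ∈ F, ‖u + z n‖ ≤ K + ε ∧ ‖u - z n‖ ≤ K + ε := by
    intro F K ε hK1 hε hF n₀
    have h1 : ∀ u ∈ F, ∀ᶠ n in atTop, ‖u + z n‖ ≤ K + ε ∧ ‖u - z n‖ ≤ K + ε := by
      intro u hu
      have h2 := hA u z 1 hzw hzn
      have h3 := hA u _ 1 (hzw.smul (-1)) hzn'
      have h4 : N ‖u‖ 1 < K + ε := lt_of_le_of_lt (hmax _ (norm_nonneg _) K hK1 (hF u hu))
        (by linarith)
      filter_upwards [h2.eventually_lt_const h4, h3.eventually_lt_const h4] with n h5 h6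
      refine ⟨h5.le, ?_⟩
      have e : u - z n = u + (-1 : ℝ) • z n := by module
      rw [e]
      exact h6.le
    obtain ⟨n, h7, h8⟩ := (((F.eventually_all).2 h1).and (eventually_gt_atTop n₀)).exists
    exact ⟨n, h8, h7⟩
  -- the recursion: finite sets, indices
  have hrec : ∃ (F : ℕ → Finset E) (m : ℕ → ℕ), F 0 = {0} ∧
      (∀ k, F (k + 1) = (F k).image (fun u => u + z (m (k + 1))) ∪
        (F k).image (fun u => u - z (m (k + 1)))) ∧
      (∀ k, m k < m (k + 1)) ∧ ∀ k, ∀ u ∈ F k, ‖u‖ ≤ 1 + (1 / 2 - (1 / 2) ^ (k + 1)) := by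
    let St := {p : ℕ × Finset E × ℕ // ∀ u ∈ p.2.1, ‖u‖ ≤ 1 + (1 / 2 - (1 / 2 : ℝ) ^ (p.1 + 1))}
    have hnext : ∀ p : St, ∃ n, p.1.2.2 < n ∧
        ∀ u ∈ p.1.2.1, ‖u + z n‖ ≤ 1 + (1 / 2 - (1 / 2 : ℝ) ^ (p.1.1 + 1 + 1)) ∧
          ‖u - z n‖ ≤ 1 + (1 / 2 - (1 / 2 : ℝ) ^ (p.1.1 + 1 + 1)) := by
      rintro ⟨⟨k, F, n₀⟩, hF⟩
      have hp : (1 / 2 : ℝ) ^ (k + 1) ≤ 1 / 2 := by
        rw [pow_succ]
        have : (1 / 2 : ℝ) ^ k ≤ 1 := pow_le_one₀ (by norm_num) (by norm_num)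
        linarith
      have hp2 : (0 : ℝ) < (1 / 2 : ℝ) ^ (k + 1 + 1) := by positivity
      obtain ⟨n, h1, h2⟩ := hstep F (1 + (1 / 2 - (1 / 2 : ℝ) ^ (k + 1))) ((1 / 2) ^ (k + 1 + 1))
        (by linarith) hp2 hF n₀
      have e : 1 + (1 / 2 - (1 / 2 : ℝ) ^ (k + 1)) + (1 / 2) ^ (k + 1 + 1) =
          1 + (1 / 2 - (1 / 2 : ℝ) ^ (k + 1 + 1)) := by
        rw [pow_succ (1 / 2 : ℝ) (k + 1)]
        ring
      rw [e] at h2
      exact ⟨n, h1, h2⟩
    choose nx hnx1 hnx2 using hnext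
    let step : St → St := fun p => ⟨(p.1.1 + 1, (p.1.2.1).image (fun u => u + z (nx p)) ∪
        (p.1.2.1).image (fun u => u - z (nx p)), nx p), by
      intro u hu
      simp only at hu
      rcases Finset.mem_union.1 hu with hu | hu
      · obtain ⟨v, hv, rfl⟩ := Finset.mem_image.1 hu
        exact (hnx2 p v hv).1
      · obtain ⟨v, hv, rfl⟩ := Finset.mem_image.1 hu
        exact (hnx2 p v hv).2⟩
    let s0 : St := ⟨(0, {0}, 0), by
      intro u hu
      rw [Finset.mem_singleton.1 hu, norm_zero]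
      norm_num⟩
    let s : ℕ → St := fun k => step^[k] s0
    have hs : ∀ k, s (k + 1) = step (s k) := fun k => Function.iterate_succ_apply' step k s0
    have hk : ∀ k, (s k).1.1 = k := by
      intro k
      induction k with
      | zero => rfl
      | succ k ih =>
        rw [hs]
        show (s k).1.1 + 1 = k + 1
        rw [ih]
    refine ⟨fun k => (s k).1.2.1, fun k => (s k).1.2.2, rfl, fun k => ?_, fun k => ?_,
      fun k u hu => ?_⟩
    · show (s (k + 1)).1.2.1 = ((s k).1.2.1).image (fun u => u + z ((s (k + 1)).1.2.2)) ∪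
        ((s k).1.2.1).image (fun u => u - z ((s (k + 1)).1.2.2))
      rw [hs k]
    · show (s k).1.2.2 < (s (k + 1)).1.2.2
      rw [hs]
      exact hnx1 (s k)
    · have := (s k).2 u hu
      rwa [hk k] at this
  obtain ⟨F, m, hF0, hF1, hm, hFb⟩ := hrec
  have hmono : StrictMono m := strictMono_nat_of_lt_succ hm
  let S : ℕ → E := fun k => ∑ i ∈ Finset.range k, z (m (i + 1))
  have hS : ∀ k, S k ∈ F k := by
    intro k
    induction k with
    | zero => rw [hF0]; simp [S]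
    | succ k ih =>
      rw [hF1]
      refine Finset.mem_union_left _ (Finset.mem_image.2 ⟨S k, ih, ?_⟩)
      simp only [S, Finset.sum_range_succ]
  have hS2 : ∀ k j, j < k → S k - (2 : ℝ) • z (m (j + 1)) ∈ F k := by
    intro k
    induction k with
    | zero => intro j hj; omega
    | succ k ih =>
      intro j hj
      rw [hF1]
      rcases Nat.lt_succ_iff_lt_or_eq.1 hj with hj | hj
      · refine Finset.mem_union_left _ (Finset.mem_image.2
          ⟨S k - (2 : ℝ) • z (m (j + 1)), ih j hj, ?_⟩)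
        simp only [S, Finset.sum_range_succ]
        abel
      · subst hj
        refine Finset.mem_union_right _ (Finset.mem_image.2 ⟨S j, hS j, ?_⟩)
        simp only [S, Finset.sum_range_succ]
        module
  have hb32 : ∀ k, ∀ u ∈ F k, ‖u‖ ≤ 3 / 2 := by
    intro k u hu
    have h1 := hFb k u hu
    have h2 : (0 : ℝ) < (1 / 2 : ℝ) ^ (k + 1) := by positivity
    linarith
  -- a limit of the partial sums
  obtain ⟨s, -, φ, hφ, hlim⟩ := hK (fun k => (2 / 3 : ℝ) • S k) (fun k => by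
    rw [norm_smul, Real.norm_of_nonneg (by norm_num)]
    have := hb32 k (S k) (hS k)
    linarith)
  have hjj : ∀ i, ‖(3 / 2 : ℝ) • s - (2 : ℝ) • z (m (i + 1))‖ ≤ 3 / 2 := by
    intro i
    have h1 : Tendsto (fun k => j (S (φ k) - (2 : ℝ) • z (m (i + 1)))) atTop
        (𝓝 (j ((3 / 2 : ℝ) • s - (2 : ℝ) • z (m (i + 1))))) := by
      have h2 := (hlim.const_smul (3 / 2 : ℝ)).sub_const (j ((2 : ℝ) • z (m (i + 1))))
      rw [map_sub, map_smul j (3 / 2 : ℝ) s]
      refine h2.congr fun k => ?_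
      rw [map_sub, map_smul j (2 / 3 : ℝ), smul_smul]
      norm_num
    refine lsc hj hK h1 fun ε hε => ?_
    filter_upwards [hφ.tendsto_atTop.eventually_gt_atTop i] with k hk
    have := hb32 _ _ (hS2 _ _ hk)
    linarith
  have hmt : Tendsto (fun i => m (i + 1)) atTop atTop :=
    hmono.tendsto_atTop.comp (tendsto_add_atTop_nat 1)
  have h5 := hA ((3 / 2 : ℝ) • s) (fun i => (-2 : ℝ) • z (m (i + 1))) 2
    ((hzw.comp hmt).smul (-2)) (tendsto_const_nhds.congr fun i => by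
      rw [norm_smul, hz]; norm_num)
  have h6 : N ‖(3 / 2 : ℝ) • s‖ 2 ≤ 3 / 2 := by
    refine le_of_tendsto' h5 fun i => ?_
    have e : (3 / 2 : ℝ) • s + (-2 : ℝ) • z (m (i + 1)) =
        (3 / 2 : ℝ) • s - (2 : ℝ) • z (m (i + 1)) := by module
    rw [e]
    exact hjj i
  have h7 := N_right hj hK hA hx hz hzw (norm_nonneg ((3 / 2 : ℝ) • s))
    (show (0 : ℝ) ≤ 2 by norm_num)
  linarith

end z

/-- **Asymptotically isotropic transitive norms are Hilbertian.** -/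
theorem main [CompleteSpace E] [TopologicalSpace.SeparableSpace E]
    (hinf : ¬ FiniteDimensional ℝ E) (hj : Function.Injective j) (hK : BallCpt j)
    (htr : Trans E) (hA : AsIso j N) (x y : E) :
    ‖x + y‖ * ‖x + y‖ + ‖x - y‖ * ‖x - y‖ = 2 * (‖x‖ * ‖x‖ + ‖y‖ * ‖y‖) := by
  obtain ⟨w, C, ρ, hwC, hw0, hρ, hwρ⟩ := exists_null hK hinf
  have hnt : Nontrivial E := by
    by_contra h
    rw [not_nontrivial_iff_subsingleton] at h
    exact hinf inferInstance
  obtain ⟨x₀, hx⟩ := exists_norm_eq E (zero_le_one (α := ℝ))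
  have hz : ∀ n, ‖nrm x₀ (w n)‖ = 1 := fun n => nrm_norm hx _
  have hzw : Null j fun n => nrm x₀ (w n) := nrm_null x₀ hw0 hρ hwρ
  have h2 := not_max hj hK hA hx hz hzw
  obtain ⟨c, hc, hpl⟩ := power_law hj hK hA hx hz hzw h2
  have hG := Ga_gauge hc
  exact parallelogram_of hG (parv_of_tau hG hinf hj hK (asympV hA hc hpl) htr) x y

/-! ### Isotropy at one point, for the weak topology -/

/-- weakly null sequences -/
def WNull (w : ℕ → E) : Prop := ∀ f : E →L[ℝ] ℝ, Tendsto (fun n => f (w n)) atTop (𝓝 0)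

theorem wnull_iff {w : ℕ → E} : WNull w ↔ Null (wk E) w := by
  unfold Null
  rw [← map_zero (wk E), wk_tendsto]
  simp [WNull]

theorem ballCpt_wk [TopologicalSpace.SeparableSpace E]
    (hr : Function.Surjective (NormedSpace.inclusionInDoubleDual ℝ E)) : BallCpt (wk E) := by
  intro u hu
  obtain ⟨a, ha, φ, hφ, hlim⟩ := weak_seq hr u hu
  exact ⟨a, ha, φ, hφ, wk_tendsto.2 hlim⟩

/-- the homogeneous function with `N 1 t = M t` -/
noncomputable def NN (M : ℝ → ℝ) (a b : ℝ) : ℝ := if a = 0 then b else a * M (b / a)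

/-- isotropy at one point gives isotropy at all points -/
theorem asIso_of_point {M : ℝ → ℝ} (htr : Trans E) (hx : ‖x₀‖ = 1) (hM0 : M 0 = 1)
    (hA : ∀ w : ℕ → E, (∀ n, ‖w n‖ = 1) → WNull w →
      ∀ t : ℝ, 0 ≤ t → Tendsto (fun n => ‖x₀ + t • w n‖) atTop (𝓝 (M t))) :
    AsIso (wk E) (NN M) := by
  intro u w b hw hwb
  have hb0 : 0 ≤ b := ge_of_tendsto' hwb fun n => norm_nonneg _
  by_cases hu : u = 0
  · subst hu
    unfold NN
    rw [norm_zero, if_pos rfl]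
    simpa using hwb
  have hu' : ‖u‖ ≠ 0 := norm_ne_zero_iff.2 hu
  have hupos : 0 < ‖u‖ := norm_pos_iff.2 hu
  unfold NN
  rw [if_neg hu']
  rcases hb0.eq_or_lt with hb | hb
  · subst hb
    rw [zero_div, hM0, mul_one]
    rw [tendsto_iff_dist_tendsto_zero]
    refine squeeze_zero (fun _ => dist_nonneg) (fun n => ?_) hwb
    rw [Real.dist_eq]
    calc |‖u + w n‖ - ‖u‖| ≤ ‖(u + w n) - u‖ := abs_norm_sub_norm_le _ _
      _ = ‖w n‖ := by rw [add_sub_cancel_left]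
  · obtain ⟨T, hT⟩ := htr (‖u‖⁻¹ • u) x₀ (by
      rw [norm_smul, norm_inv, norm_norm, inv_mul_cancel₀ hu']) hx
    set t := b / ‖u‖ with ht
    have ht0 : 0 ≤ t := div_nonneg hb0 hupos.le
    have hnull : WNull fun n => T (nrm x₀ (w n)) := fun f =>
      (wnull_iff.2 (nrm_null x₀ hw hb hwb)) (f.comp ((T : E ≃L[ℝ] E) : E →L[ℝ] E))
    have h1 := hA (fun n => T (nrm x₀ (w n))) (fun n => by rw [T.norm_map, nrm_norm hx])
      hnull t ht0
    have h2 : Tendsto (fun n => ‖x₀ + ‖u‖⁻¹ • T (w n)‖) atTop (𝓝 (M t)) := by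
      refine tendsto_of_tendsto_of_dist h1 ?_
      have h3 : Tendsto (fun n => |‖u‖⁻¹ * ‖w n‖ - t|) atTop (𝓝 0) := by
        have h4 := ((hwb.const_mul ‖u‖⁻¹).sub_const t).abs
        have h5 : ‖u‖⁻¹ * b - t = 0 := by rw [ht, div_eq_inv_mul, sub_self]
        rwa [h5, abs_zero] at h4
      refine squeeze_zero' (Eventually.of_forall fun _ => dist_nonneg) ?_ h3
      filter_upwards [hwb.eventually_const_lt hb] with n hn
      have h0 : w n ≠ 0 := norm_pos_iff.1 hn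
      rw [Real.dist_eq]
      refine (abs_norm_sub_norm_le _ _).trans ?_
      have e1 : (x₀ + t • T (nrm x₀ (w n))) - (x₀ + ‖u‖⁻¹ • T (w n)) =
          -((‖u‖⁻¹ * ‖w n‖ - t) • T (nrm x₀ (w n))) := by
        have e2 : T (w n) = ‖w n‖ • T (nrm x₀ (w n)) := by
          unfold nrm
          rw [if_neg h0, map_smul, smul_smul, mul_inv_cancel₀ (norm_ne_zero_iff.2 h0), one_smul]
        rw [e2]
        module
      rw [e1, norm_neg, norm_smul, T.norm_map, nrm_norm hx, mul_one, Real.norm_eq_abs]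
    have h6 := h2.const_mul ‖u‖
    refine h6.congr fun n => ?_
    have e3 : u + w n = ‖u‖ • T.symm (x₀ + ‖u‖⁻¹ • T (w n)) := by
      rw [map_add, ← hT, T.symm_apply_apply, map_smul, T.symm_apply_apply, smul_add, smul_smul,
        smul_smul, mul_inv_cancel₀ hu', one_smul, one_smul]
    rw [e3, norm_smul, norm_norm, T.symm.norm_map]

/-- **Isotropy at one point.** -/
theorem main_point [CompleteSpace E] [TopologicalSpace.SeparableSpace E]
    (hinf : ¬ FiniteDimensional ℝ E)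
    (hr : Function.Surjective (NormedSpace.inclusionInDoubleDual ℝ E))
    (htr : Trans E) (hx : ‖x₀‖ = 1) {M : ℝ → ℝ}
    (hA : ∀ w : ℕ → E, (∀ n, ‖w n‖ = 1) → WNull w →
      ∀ t : ℝ, 0 ≤ t → Tendsto (fun n => ‖x₀ + t • w n‖) atTop (𝓝 (M t))) (x y : E) :
    ‖x + y‖ * ‖x + y‖ + ‖x - y‖ * ‖x - y‖ = 2 * (‖x‖ * ‖x‖ + ‖y‖ * ‖y‖) := by
  have hK : BallCpt (wk E) := ballCpt_wk hr
  obtain ⟨w, C, ρ, hwC, hw0, hρ, hwρ⟩ := exists_null hK hinf
  have hzw : WNull fun n => nrm x₀ (w n) := wnull_iff.2 (nrm_null x₀ hw0 hρ hwρ)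
  have hM0 : M 0 = 1 := by
    have h1 := hA _ (fun n => nrm_norm hx _) hzw 0 le_rfl
    refine tendsto_nhds_unique h1 (tendsto_const_nhds.congr fun n => ?_)
    rw [zero_smul, add_zero, hx]
  exact main hinf wk_inj hK htr (asIso_of_point htr hx hM0 hA) x y

end Pool.Agent.Q199.AI
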