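import Pool.Agent.Q199.AI.Mult
import Pool.Agent.H770R2.Maz5

/-!
# Asymptotically isotropic norms, for a vector topology with sequentially compact ball
-/

set_option autoImplicit false
set_option linter.unusedSectionVars false

namespace Pool.Agent.Q199.AI

open Filter Topology
open Pool.H770R2.Maz

variable {E : Type*} [NormedAddCommGroup E] [NormedSpace ℝ E]
  {V : Type*} [AddCommGroup V] [Module ℝ V] [TopologicalSpace V] [IsTopologicalAddGroup V]
  [ContinuousSMul ℝ V] [T2Space V] {j : E →ₗ[ℝ] V} {N : ℝ → ℝ → ℝ} {x₀ : E} {z : ℕ → E}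

/-- null sequences -/
def Null (j : E →ₗ[ℝ] V) (w : ℕ → E) : Prop := Tendsto (fun n => j (w n)) atTop (𝓝 0)

/-- the norm is asymptotically isotropic, with the function `N` -/
def AsIso (j : E →ₗ[ℝ] V) (N : ℝ → ℝ → ℝ) : Prop :=
  ∀ (u : E) (w : ℕ → E) (b : ℝ), Null j w → Tendsto (fun n => ‖w n‖) atTop (𝓝 b) →
    Tendsto (fun n => ‖u + w n‖) atTop (𝓝 (N ‖u‖ b))

theorem Null.smul {w : ℕ → E} (hw : Null j w) (c : ℝ) : Null j fun n => c • w n := by
  have := Tendsto.const_smul hw c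
  rw [smul_zero] at this
  exact this.congr fun n => (map_smul j c (w n)).symm

theorem Null.add {w v : ℕ → E} (hw : Null j w) (hv : Null j v) : Null j fun n => w n + v n := by
  have := Tendsto.add hw hv
  rw [add_zero] at this
  exact this.congr fun n => (map_add j (w n) (v n)).symm

theorem Null.comp {w : ℕ → E} (hw : Null j w) {m : ℕ → ℕ} (hm : Tendsto m atTop atTop) :
    Null j fun n => w (m n) :=
  (show Tendsto (fun n => j (w n)) atTop (𝓝 0) from hw).comp hm

open Classical in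
/-- normalisation -/
noncomputable def nrm (x₀ : E) (w : E) : E := if w = 0 then x₀ else ‖w‖⁻¹ • w

theorem nrm_norm {x₀ : E} (h : ‖x₀‖ = 1) (w : E) : ‖nrm x₀ w‖ = 1 := by
  unfold nrm
  split_ifs with h0
  · exact h
  · rw [norm_smul, norm_inv, norm_norm, inv_mul_cancel₀ (norm_ne_zero_iff.2 h0)]

theorem nrm_null (x₀ : E) {w : ℕ → E} (hw : Null j w) {b : ℝ} (hb : 0 < b)
    (hwb : Tendsto (fun n => ‖w n‖) atTop (𝓝 b)) : Null j fun n => nrm x₀ (w n) := by
  have h1 : Tendsto (fun n => ‖w n‖⁻¹ • j (w n)) atTop (𝓝 (b⁻¹ • (0 : V))) :=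
    (hwb.inv₀ hb.ne').smul hw
  rw [smul_zero] at h1
  refine Tendsto.congr' ?_ h1
  filter_upwards [hwb.eventually_const_lt hb] with n hn
  have h0 : w n ≠ 0 := norm_pos_iff.1 hn
  unfold nrm
  rw [if_neg h0, map_smul]

/-- lower semicontinuity of the norm -/
theorem lsc (hj : Function.Injective j) (hK : BallCpt j) {u : ℕ → E} {a : E} {L : ℝ}
    (hu : Tendsto (fun n => j (u n)) atTop (𝓝 (j a)))
    (hL : ∀ ε : ℝ, 0 < ε → ∀ᶠ n in atTop, ‖u n‖ ≤ L + ε) : ‖a‖ ≤ L := by
  refine le_of_forall_pos_le_add fun ε hε => ?_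
  obtain ⟨n₀, hn₀⟩ := eventually_atTop.1 (hL ε hε)
  have h0 : 0 ≤ L + ε := (norm_nonneg _).trans (hn₀ n₀ le_rfl)
  exact norm_le_of_tau hj hK h0 (u := fun n => u (n + n₀))
    (fun n => hn₀ _ (Nat.le_add_left _ _)) (hu.comp (tendsto_add_atTop_nat n₀))

section z

variable (hj : Function.Injective j) (hK : BallCpt j) (hA : AsIso j N) (hx : ‖x₀‖ = 1)
  (hz : ∀ n, ‖z n‖ = 1) (hzw : Null j z)

include hx in
theorem norm_ax (a : ℝ) (ha : 0 ≤ a) : ‖a • x₀‖ = a := by
  rw [norm_smul, hx, mul_one, Real.norm_of_nonneg ha]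

include hj hK hA hx hz hzw

theorem limN {a b : ℝ} (ha : 0 ≤ a) (hb : 0 ≤ b) :
    Tendsto (fun n => ‖a • x₀ + b • z n‖) atTop (𝓝 (N a b)) := by
  have h1 := hA (a • x₀) _ b (hzw.smul b)
    (tendsto_const_nhds.congr fun n => by
      rw [norm_smul, hz, mul_one, Real.norm_of_nonneg hb])
  rwa [norm_ax hx a ha] at h1

theorem limN' {a b : ℝ} (ha : 0 ≤ a) (hb : 0 ≤ b) :
    Tendsto (fun n => ‖(-a) • x₀ + b • z n‖) atTop (𝓝 (N a b)) := by
  have h1 := hA ((-a) • x₀) _ b (hzw.smul b)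
    (tendsto_const_nhds.congr fun n => by
      rw [norm_smul, hz, mul_one, Real.norm_of_nonneg hb])
  rwa [neg_smul, norm_neg, norm_ax hx a ha, ← neg_smul] at h1

theorem limN'' {a b : ℝ} (ha : 0 ≤ a) (hb : 0 ≤ b) :
    Tendsto (fun n => ‖a • x₀ - b • z n‖) atTop (𝓝 (N a b)) := by
  refine (limN' hj hK hA hx hz hzw ha hb).congr fun n => ?_
  rw [← norm_neg]
  congr 1
  module

theorem N_nonneg {a b : ℝ} (ha : 0 ≤ a) (hb : 0 ≤ b) : 0 ≤ N a b :=
  ge_of_tendsto' (limN hj hK hA hx hz hzw ha hb) fun _ => norm_nonneg _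

theorem N_hom {a b c : ℝ} (ha : 0 ≤ a) (hb : 0 ≤ b) (hc : 0 ≤ c) :
    N (c * a) (c * b) = c * N a b := by
  refine tendsto_nhds_unique (limN hj hK hA hx hz hzw (mul_nonneg hc ha) (mul_nonneg hc hb)) ?_
  refine ((limN hj hK hA hx hz hzw ha hb).const_mul c).congr fun n => ?_
  rw [mul_smul, mul_smul, ← smul_add, norm_smul, Real.norm_of_nonneg hc]

theorem N_lip {a b a' b' : ℝ} (ha : 0 ≤ a) (hb : 0 ≤ b) (ha' : 0 ≤ a') (hb' : 0 ≤ b') :
    |N a b - N a' b'| ≤ |a - a'| + |b - b'| := by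
  have h1 := ((limN hj hK hA hx hz hzw ha hb).sub (limN hj hK hA hx hz hzw ha' hb')).abs
  refine le_of_tendsto' h1 fun n => (abs_norm_sub_norm_le _ _).trans ?_
  have e : (a • x₀ + b • z n) - (a' • x₀ + b' • z n) = (a - a') • x₀ + (b - b') • z n := by module
  rw [e]
  refine (norm_add_le _ _).trans ?_
  rw [norm_smul, norm_smul, hx, hz, mul_one, mul_one, Real.norm_eq_abs, Real.norm_eq_abs]

theorem N_zero {a : ℝ} (ha : 0 ≤ a) : N a 0 = a := by
  refine tendsto_nhds_unique (limN hj hK hA hx hz hzw ha le_rfl) ?_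
  refine tendsto_const_nhds.congr fun n => ?_
  rw [zero_smul, add_zero, norm_ax hx a ha]

theorem N_left {a b : ℝ} (ha : 0 ≤ a) (hb : 0 ≤ b) : a ≤ N a b := by
  have h1 : Tendsto (fun n => j (a • x₀ + b • z n)) atTop (𝓝 (j (a • x₀))) := by
    have h2 := (tendsto_const_nhds (x := j (a • x₀))).add (hzw.smul b)
    rw [add_zero] at h2
    exact h2.congr fun n => (map_add j _ _).symm
  have h3 := lsc hj hK h1 (L := N a b) (fun ε hε => by
    filter_upwards [(limN hj hK hA hx hz hzw ha hb).eventually_lt_const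
      (show N a b < N a b + ε by linarith)] with n hn
    exact hn.le)
  rwa [norm_ax hx a ha] at h3

theorem N_mono_left {a a' b : ℝ} (ha : 0 ≤ a) (haa : a ≤ a') (hb : 0 ≤ b) :
    N a b ≤ N a' b := by
  have ha' : 0 ≤ a' := ha.trans haa
  rcases ha'.eq_or_lt with h0 | h0
  · have : a = a' := le_antisymm haa (h0 ▸ ha)
    rw [this]
  · have h1 := ((limN hj hK hA hx hz hzw ha' hb).const_mul ((a' + a) / (2 * a'))).add
      ((limN' hj hK hA hx hz hzw ha' hb).const_mul ((a' - a) / (2 * a')))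
    have e : (a' + a) / (2 * a') * N a' b + (a' - a) / (2 * a') * N a' b = N a' b := by
      field_simp
      ring
    rw [e] at h1
    refine le_of_tendsto_of_tendsto' (limN hj hK hA hx hz hzw ha hb) h1 fun n => ?_
    have c1 : 0 ≤ (a' + a) / (2 * a') := by positivity
    have c2 : 0 ≤ (a' - a) / (2 * a') := div_nonneg (by linarith) (by positivity)
    have c3 : (a' + a) / (2 * a') + (a' - a) / (2 * a') = 1 := by field_simp; ring
    have c4 : (a' + a) / (2 * a') * a' - (a' - a) / (2 * a') * a' = a := by field_simp; ring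
    have e2 : a • x₀ + b • z n = ((a' + a) / (2 * a')) • (a' • x₀ + b • z n) +
        ((a' - a) / (2 * a')) • ((-a') • x₀ + b • z n) := by
      calc a • x₀ + b • z n = ((a' + a) / (2 * a') * a' - (a' - a) / (2 * a') * a') • x₀ +
            (((a' + a) / (2 * a') + (a' - a) / (2 * a')) * b) • z n := by rw [c3, c4, one_mul]
        _ = _ := by module
    rw [e2]
    refine (norm_add_le _ _).trans ?_
    rw [norm_smul, norm_smul, Real.norm_of_nonneg c1, Real.norm_of_nonneg c2]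

theorem N_mono_right {a b b' : ℝ} (ha : 0 ≤ a) (hb : 0 ≤ b) (hbb : b ≤ b') :
    N a b ≤ N a b' := by
  have hb' : 0 ≤ b' := hb.trans hbb
  rcases hb'.eq_or_lt with h0 | h0
  · have : b = b' := le_antisymm hbb (h0 ▸ hb)
    rw [this]
  · have h1 := ((limN hj hK hA hx hz hzw ha hb').const_mul ((b' + b) / (2 * b'))).add
      ((limN'' hj hK hA hx hz hzw ha hb').const_mul ((b' - b) / (2 * b')))
    have e : (b' + b) / (2 * b') * N a b' + (b' - b) / (2 * b') * N a b' = N a b' := by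
      field_simp
      ring
    rw [e] at h1
    refine le_of_tendsto_of_tendsto' (limN hj hK hA hx hz hzw ha hb) h1 fun n => ?_
    have c1 : 0 ≤ (b' + b) / (2 * b') := by positivity
    have c2 : 0 ≤ (b' - b) / (2 * b') := div_nonneg (by linarith) (by positivity)
    have c3 : (b' + b) / (2 * b') + (b' - b) / (2 * b') = 1 := by field_simp; ring
    have c4 : (b' + b) / (2 * b') * b' - (b' - b) / (2 * b') * b' = b := by field_simp; ring
    have e2 : a • x₀ + b • z n = ((b' + b) / (2 * b')) • (a • x₀ + b' • z n) +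
        ((b' - b) / (2 * b')) • (a • x₀ - b' • z n) := by
      calc a • x₀ + b • z n = (((b' + b) / (2 * b') + (b' - b) / (2 * b')) * a) • x₀ +
            ((b' + b) / (2 * b') * b' - (b' - b) / (2 * b') * b') • z n := by rw [c3, c4, one_mul]
        _ = _ := by module
    rw [e2]
    refine (norm_add_le _ _).trans ?_
    rw [norm_smul, norm_smul, Real.norm_of_nonneg c1, Real.norm_of_nonneg c2]

theorem N_zero' {b : ℝ} (hb : 0 ≤ b) : N 0 b = b := by
  refine tendsto_nhds_unique (limN hj hK hA hx hz hzw le_rfl hb) ?_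
  refine tendsto_const_nhds.congr fun n => ?_
  rw [zero_smul, zero_add, norm_smul, hz, mul_one, Real.norm_of_nonneg hb]

theorem N_right {a b : ℝ} (ha : 0 ≤ a) (hb : 0 ≤ b) : b ≤ N a b := by
  calc b = N 0 b := (N_zero' hj hK hA hx hz hzw hb).symm
    _ ≤ _ := N_mono_left hj hK hA hx hz hzw le_rfl ha hb

/-- associativity -/
theorem N_assoc {a b c : ℝ} (ha : 0 ≤ a) (hb : 0 ≤ b) (hc : 0 ≤ c) :
    N (N a b) c = N a (N b c) := by
  have hstep : ∀ n : ℕ, ∃ m, n ≤ m ∧
      |‖(a • x₀ + b • z n) + c • z m‖ - N ‖a • x₀ + b • z n‖ c| < 1 / ((n : ℝ) + 1) ∧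
      |‖b • z n + c • z m‖ - N b c| < 1 / ((n : ℝ) + 1) := by
    intro n
    have hpos : (0 : ℝ) < 1 / ((n : ℝ) + 1) := by positivity
    have hcz : Tendsto (fun m => ‖c • z m‖) atTop (𝓝 c) :=
      tendsto_const_nhds.congr fun m => by
        rw [norm_smul, hz, mul_one, Real.norm_of_nonneg hc]
    have h1 := hA (a • x₀ + b • z n) _ c (hzw.smul c) hcz
    have h2 := hA (b • z n) _ c (hzw.smul c) hcz
    have hbz : ‖b • z n‖ = b := by rw [norm_smul, hz, mul_one, Real.norm_of_nonneg hb]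
    rw [hbz] at h2
    have h3 := (Metric.tendsto_nhds.1 h1 _ hpos).and ((Metric.tendsto_nhds.1 h2 _ hpos).and
      (eventually_ge_atTop n))
    obtain ⟨m, h4, h5, h6⟩ := h3.exists
    exact ⟨m, h6, by rwa [Real.dist_eq] at h4, by rwa [Real.dist_eq] at h5⟩
  choose m hm1 hm2 hm3 using hstep
  have hmt : Tendsto m atTop atTop := tendsto_atTop_mono hm1 tendsto_id
  have hone : Tendsto (fun n : ℕ => 1 / ((n : ℝ) + 1)) atTop (𝓝 0) :=
    tendsto_one_div_add_atTop_nhds_zero_nat
  -- the composite sequence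
  have hw : Null j fun n => b • z n + c • z (m n) := (hzw.smul b).add ((hzw.comp hmt).smul c)
  have hwb : Tendsto (fun n => ‖b • z n + c • z (m n)‖) atTop (𝓝 (N b c)) := by
    rw [tendsto_iff_dist_tendsto_zero]
    refine squeeze_zero (fun _ => dist_nonneg) (fun n => ?_) hone
    rw [Real.dist_eq]
    exact (hm3 n).le
  have h1 := hA (a • x₀) _ _ hw hwb
  rw [norm_ax hx a ha] at h1
  refine (tendsto_nhds_unique h1 ?_).symm
  have h2 : Tendsto (fun n => N ‖a • x₀ + b • z n‖ c) atTop (𝓝 (N (N a b) c)) := by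
    rw [tendsto_iff_dist_tendsto_zero]
    have h3 : Tendsto (fun n => |‖a • x₀ + b • z n‖ - N a b|) atTop (𝓝 0) := by
      have := ((limN hj hK hA hx hz hzw ha hb).sub_const (N a b)).abs
      rwa [sub_self, abs_zero] at this
    refine squeeze_zero (fun _ => dist_nonneg) (fun n => ?_) h3
    rw [Real.dist_eq]
    refine (N_lip hj hK hA hx hz hzw (norm_nonneg _) hc
      (N_nonneg hj hK hA hx hz hzw ha hb) hc).trans ?_
    rw [sub_self, abs_zero, add_zero]
  refine tendsto_of_tendsto_of_dist h2 ?_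
  refine squeeze_zero (fun _ => dist_nonneg) (fun n => ?_) hone
  rw [Real.dist_eq, abs_sub_comm]
  have := (hm2 n).le
  rwa [add_assoc] at this

end z

end Pool.Agent.Q199.AI
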