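import Mathlib

/-!
# Monotone multiplicative sequences; weak sequential compactness of the ball
-/

set_option autoImplicit false

namespace Pool.Agent.Q199.AI

open Filter Topology

/-- a monotone completely multiplicative sequence is a power -/
theorem mult_pow (s : ℕ → ℝ) (h1 : s 1 = 1) (hm : ∀ m n, s (m * n) = s m * s n)
    (hmono : Monotone s) (h2 : 1 < s 2) : ∃ c : ℝ, 0 < c ∧ ∀ n : ℕ, 1 ≤ n → s n = (n : ℝ) ^ c := by
  have hL : 0 < Real.log (s 2) := Real.log_pos h2
  have hl2 : 0 < Real.log 2 := Real.log_pos (by norm_num)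
  have hpow : ∀ (n k : ℕ), s (n ^ k) = s n ^ k := by
    intro n k
    induction k with
    | zero => simpa using h1
    | succ k ih => rw [pow_succ, hm, ih, pow_succ]
  refine ⟨Real.log (s 2) / Real.log 2, div_pos hL hl2, fun n hn => ?_⟩
  have hsn : 1 ≤ s n := h1 ▸ hmono hn
  have hsn0 : 0 < s n := by linarith
  have hn0 : (0 : ℝ) < n := by exact_mod_cast hn
  have key : Real.log (s n) = Real.log (s 2) / Real.log 2 * Real.log n := by
    by_contra hne
    set d := Real.log (s n) - Real.log (s 2) / Real.log 2 * Real.log n with hd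
    have hd0 : d ≠ 0 := sub_ne_zero.2 hne
    obtain ⟨k, hk⟩ := exists_nat_gt (Real.log (s 2) / |d|)
    have hk2 : Real.log (s 2) < k * |d| := by
      rwa [div_lt_iff₀ (abs_pos.2 hd0)] at hk
    have hnk : n ^ k ≠ 0 := by positivity
    have e1 : 2 ^ Nat.log 2 (n ^ k) ≤ n ^ k := Nat.pow_log_le_self 2 hnk
    have e2 : n ^ k < 2 ^ (Nat.log 2 (n ^ k) + 1) := Nat.lt_pow_succ_log_self (by norm_num) _
    set l := Nat.log 2 (n ^ k) with hl
    have f1 : s 2 ^ l ≤ s n ^ k := by
      rw [← hpow, ← hpow]; exact hmono e1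
    have f2 : s n ^ k ≤ s 2 ^ (l + 1) := by
      rw [← hpow, ← hpow]; exact hmono e2.le
    have g1 : l * Real.log (s 2) ≤ k * Real.log (s n) := by
      rw [← Real.log_pow, ← Real.log_pow]
      exact Real.log_le_log (by positivity) f1
    have g2 : k * Real.log (s n) ≤ (l + 1) * Real.log (s 2) := by
      have := Real.log_le_log (by positivity) f2
      rw [Real.log_pow, Real.log_pow] at this
      push_cast at this
      exact this
    have g3 : l * Real.log 2 ≤ k * Real.log n := by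
      rw [← Real.log_pow, ← Real.log_pow]
      exact Real.log_le_log (by positivity) (by exact_mod_cast e1)
    have g4 : k * Real.log n ≤ (l + 1) * Real.log 2 := by
      have : Real.log ((n : ℝ) ^ k) ≤ Real.log ((2 : ℝ) ^ (l + 1)) :=
        Real.log_le_log (by positivity) (by exact_mod_cast e2.le)
      rw [Real.log_pow, Real.log_pow] at this
      push_cast at this
      exact this
    have g5 : l * Real.log (s 2) ≤ k * (Real.log (s 2) / Real.log 2 * Real.log n) := by
      have : k * (Real.log (s 2) / Real.log 2 * Real.log n) =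
          Real.log (s 2) / Real.log 2 * (k * Real.log n) := by ring
      rw [this]
      calc l * Real.log (s 2) = Real.log (s 2) / Real.log 2 * (l * Real.log 2) := by
            field_simp
        _ ≤ _ := mul_le_mul_of_nonneg_left g3 (div_pos hL hl2).le
    have g6 : k * (Real.log (s 2) / Real.log 2 * Real.log n) ≤ (l + 1) * Real.log (s 2) := by
      have : k * (Real.log (s 2) / Real.log 2 * Real.log n) =
          Real.log (s 2) / Real.log 2 * (k * Real.log n) := by ring
      rw [this]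
      calc _ ≤ Real.log (s 2) / Real.log 2 * ((l + 1) * Real.log 2) :=
            mul_le_mul_of_nonneg_left g4 (div_pos hL hl2).le
        _ = _ := by field_simp
    have h3 : |k * d| ≤ Real.log (s 2) := by
      rw [abs_le, hd, mul_sub]
      constructor <;> linarith
    rw [abs_mul, Nat.abs_cast] at h3
    linarith
  rw [← Real.exp_log hsn0, key, Real.rpow_def_of_pos hn0]
  congr 1
  ring

variable {E : Type*} [NormedAddCommGroup E] [NormedSpace ℝ E]

/-- the embedding of `E` into the product of the lines, which induces the weak topology -/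
def wk (E : Type*) [NormedAddCommGroup E] [NormedSpace ℝ E] : E →ₗ[ℝ] ((E →L[ℝ] ℝ) → ℝ) where
  toFun x f := f x
  map_add' x y := by funext f; simp
  map_smul' c x := by funext f; simp

theorem wk_tendsto {u : ℕ → E} {a : E} :
    Tendsto (fun n => wk E (u n)) atTop (𝓝 (wk E a)) ↔
      ∀ f : E →L[ℝ] ℝ, Tendsto (fun n => f (u n)) atTop (𝓝 (f a)) := by
  rw [tendsto_pi_nhds]
  rfl

theorem wk_inj : Function.Injective (wk E) := by
  intro x y h
  by_contra hne
  obtain ⟨f, -, hf⟩ := exists_dual_vector ℝ (x - y) (norm_ne_zero_iff.2 (sub_ne_zero.2 hne))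
  have h1 : f x = f y := congrFun h f
  rw [map_sub, h1, sub_self] at hf
  have h2 : ‖x - y‖ = 0 := by exact_mod_cast hf.symm
  exact hne (sub_eq_zero.1 (norm_eq_zero.1 h2))

/-- limits along ultrafilters in reflexive spaces -/
theorem exists_ulim (hr : Function.Surjective (NormedSpace.inclusionInDoubleDual ℝ E))
    {u : ℕ → E} (hu : ∀ n, ‖u n‖ ≤ 1) (U : Ultrafilter ℕ) :
    ∃ a : E, ‖a‖ ≤ 1 ∧ ∀ f : E →L[ℝ] ℝ, Tendsto (fun n => f (u n)) U (𝓝 (f a)) := by
  have hb : ∀ (f : E →L[ℝ] ℝ) (n : ℕ), |f (u n)| ≤ ‖f‖ := fun f n => by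
    calc |f (u n)| ≤ ‖f‖ * ‖u n‖ := f.le_opNorm _
      _ ≤ ‖f‖ * 1 := mul_le_mul_of_nonneg_left (hu n) (norm_nonneg _)
      _ = ‖f‖ := mul_one _
  have hex : ∀ f : E →L[ℝ] ℝ, ∃ l : ℝ, Tendsto (fun n => f (u n)) U (𝓝 l) := by
    intro f
    have hc : IsCompact (Set.Icc (-‖f‖) ‖f‖) := isCompact_Icc
    have hmem : ∀ n, f (u n) ∈ Set.Icc (-‖f‖) ‖f‖ := fun n => abs_le.1 (hb f n)
    obtain ⟨l, -, hl⟩ := hc.ultrafilter_le_nhds (U.map fun n => f (u n))
      (by
        rw [Ultrafilter.coe_map, le_principal_iff, mem_map]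
        exact Filter.univ_mem' hmem)
    exact ⟨l, hl⟩
  choose L hL using hex
  let Φ : (E →L[ℝ] ℝ) →ₗ[ℝ] ℝ :=
    { toFun := L
      map_add' := fun f g => by
        refine tendsto_nhds_unique (hL (f + g)) ?_
        simpa using (hL f).add (hL g)
      map_smul' := fun c f => by
        refine tendsto_nhds_unique (hL (c • f)) ?_
        simpa using (hL f).const_mul c }
  have hΦ : ∀ f, ‖Φ f‖ ≤ 1 * ‖f‖ := by
    intro f
    rw [one_mul]
    have h1 : Tendsto (fun n => |f (u n)|) U (𝓝 |L f|) := (hL f).abs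
    exact le_of_tendsto h1 (Filter.Eventually.of_forall (hb f))
  obtain ⟨a, ha⟩ := hr (Φ.mkContinuous 1 hΦ)
  have ha2 : ∀ f : E →L[ℝ] ℝ, f a = L f := by
    intro f
    have := DFunLike.congr_fun ha f
    rw [NormedSpace.dual_def] at this
    rw [this]
    rfl
  refine ⟨a, ?_, fun f => by rw [ha2]; exact hL f⟩
  obtain ⟨f, hf1, hf2⟩ := exists_dual_vector'' ℝ a
  have h3 : f a = ‖a‖ := by exact_mod_cast hf2
  rw [← h3, ha2]
  calc L f ≤ ‖Φ f‖ := Real.le_norm_self _
    _ ≤ 1 * ‖f‖ := hΦ f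
    _ ≤ 1 := by linarith

/-- the unit ball of a separable reflexive space is weakly sequentially compact -/
theorem weak_seq [TopologicalSpace.SeparableSpace E]
    (hr : Function.Surjective (NormedSpace.inclusionInDoubleDual ℝ E))
    (u : ℕ → E) (hu : ∀ n, ‖u n‖ ≤ 1) :
    ∃ a : E, ‖a‖ ≤ 1 ∧ ∃ φ : ℕ → ℕ, StrictMono φ ∧
      ∀ f : E →L[ℝ] ℝ, Tendsto (fun k => f (u (φ k))) atTop (𝓝 (f a)) := by
  have hg : ∀ i, ∃ g : E →L[ℝ] ℝ, ‖g‖ ≤ 1 ∧ g (TopologicalSpace.denseSeq E i) =
      ‖TopologicalSpace.denseSeq E i‖ := fun i => by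
    obtain ⟨f, hf1, hf2⟩ := exists_dual_vector'' ℝ (TopologicalSpace.denseSeq E i)
    exact ⟨f, hf1, by exact_mod_cast hf2⟩
  choose g hg1 hg2 using hg
  have hsep : ∀ x : E, (∀ i, g i x = 0) → x = 0 := by
    intro x hx
    by_contra hne
    have hpos : 0 < ‖x‖ := norm_pos_iff.2 hne
    obtain ⟨i, hi⟩ := (TopologicalSpace.denseRange_denseSeq E).exists_dist_lt x
      (half_pos hpos)
    rw [dist_eq_norm] at hi
    set d := TopologicalSpace.denseSeq E i
    have h1 : ‖d‖ ≤ ‖d - x‖ := by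
      calc ‖d‖ = g i (d - x) := by rw [map_sub, hx i, sub_zero, hg2 i]
        _ ≤ ‖g i (d - x)‖ := Real.le_norm_self _
        _ ≤ ‖g i‖ * ‖d - x‖ := (g i).le_opNorm _
        _ ≤ 1 * ‖d - x‖ := mul_le_mul_of_nonneg_right (hg1 i) (norm_nonneg _)
        _ = _ := one_mul _
    have h2 : ‖x‖ ≤ ‖x - d‖ + ‖d‖ := by
      calc ‖x‖ = ‖(x - d) + d‖ := by rw [sub_add_cancel]
        _ ≤ _ := norm_add_le _ _
    rw [norm_sub_rev d x] at h1
    linarith
  have hcomp : IsCompact (Set.pi Set.univ fun _ : ℕ => Set.Icc (-1 : ℝ) 1) :=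
    isCompact_univ_pi fun _ => isCompact_Icc
  obtain ⟨l, -, φ, hφ, hlim⟩ := hcomp.tendsto_subseq (x := fun n i => g i (u n)) (by
    intro n i _
    rw [Set.mem_Icc, ← abs_le]
    calc |g i (u n)| ≤ ‖g i‖ * ‖u n‖ := (g i).le_opNorm _
      _ ≤ 1 * 1 := mul_le_mul (hg1 i) (hu n) (norm_nonneg _) zero_le_one
      _ = 1 := one_mul _)
  rw [tendsto_pi_nhds] at hlim
  obtain ⟨a, ha1, ha2⟩ := exists_ulim hr (u := fun k => u (φ k)) (fun k => hu _)
    (Filter.hyperfilter ℕ)
  have hle : ((Filter.hyperfilter ℕ : Ultrafilter ℕ) : Filter ℕ) ≤ atTop :=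
    Nat.hyperfilter_le_atTop
  refine ⟨a, ha1, φ, hφ, fun f => ?_⟩
  rw [tendsto_iff_ultrafilter]
  intro U hU
  obtain ⟨b, -, hb2⟩ := exists_ulim hr (u := fun k => u (φ k)) (fun k => hu _) U
  have hab : b - a = 0 := by
    apply hsep
    intro i
    rw [map_sub, sub_eq_zero]
    have h1 := tendsto_nhds_unique (hb2 (g i)) ((hlim i).mono_left hU)
    have h2 := tendsto_nhds_unique (ha2 (g i)) ((hlim i).mono_left hle)
    rw [h1, h2]
  rw [← sub_eq_zero.1 hab]
  exact hb2 f

end Pool.Agent.Q199.AI
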